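import Mathlib

/-!
Each positive zero of `∑ c n / (u + (n + 1) ^ 2)` can be divided out inside the class of series
with coefficients in `[-1, 1]`.
-/

namespace Pool.Agent.Lib.MP_51e19e_an.Sq

open Complex Finset

/-- the series in the variable `u = t ^ 2` -/
noncomputable def F (c : ℕ → ℝ) (u : ℂ) : ℂ := ∑' n : ℕ, (c n : ℂ) / (u + ((n : ℂ) + 1) ^ 2)

lemma den_ge {u : ℂ} (hu : 0 ≤ u.re) (n : ℕ) : ((n : ℝ) + 1) ^ 2 ≤ ‖u + ((n : ℂ) + 1) ^ 2‖ := by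
  refine le_trans ?_ (re_le_norm _)
  have : ((n : ℂ) + 1) ^ 2 = ((((n : ℝ) + 1) ^ 2 : ℝ) : ℂ) := by push_cast; rfl
  rw [this, add_re, ofReal_re]
  linarith

lemma den_ne {u : ℂ} (hu : 0 ≤ u.re) (n : ℕ) : u + ((n : ℂ) + 1) ^ 2 ≠ 0 :=
  norm_pos_iff.1 (lt_of_lt_of_le (by positivity) (den_ge hu n))

lemma hs1 : HasSum (fun n : ℕ => 1 / ((n : ℝ) + 1) ^ 2) (Real.pi ^ 2 / 6) := by
  have h : HasSum (fun n : ℕ => (1 : ℝ) / (((n + 1 : ℕ) : ℝ)) ^ 2) (Real.pi ^ 2 / 6) := by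
    rw [hasSum_nat_add_iff (f := fun n : ℕ => (1 : ℝ) / (n : ℝ) ^ 2) 1]
    simpa using hasSum_zeta_two
  simpa using h

lemma zeta_le : Real.pi ^ 2 / 6 ≤ 1.66 := by
  have := Real.pi_lt_d2
  have := Real.pi_pos
  nlinarith

variable {c : ℕ → ℝ}

lemma term_le (hc : ∀ n, |c n| ≤ 1) {u : ℂ} (hu : 0 ≤ u.re) (n : ℕ) :
    ‖(c n : ℂ) / (u + ((n : ℂ) + 1) ^ 2)‖ ≤ 1 / ((n : ℝ) + 1) ^ 2 := by
  rw [norm_div, norm_real, Real.norm_eq_abs]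
  exact div_le_div₀ zero_le_one (hc n) (by positivity) (den_ge hu n)

lemma hasSum_F (hc : ∀ n, |c n| ≤ 1) {u : ℂ} (hu : 0 ≤ u.re) :
    HasSum (fun n : ℕ => (c n : ℂ) / (u + ((n : ℂ) + 1) ^ 2)) (F c u) :=
  (Summable.of_norm_bounded hs1.summable (term_le hc hu)).hasSum

lemma norm_F_le (hc : ∀ n, |c n| ≤ 1) {u : ℂ} (hu : 0 ≤ u.re) : ‖F c u‖ ≤ 2 :=
  (tsum_of_norm_bounded hs1 (term_le hc hu)).trans (zeta_le.trans (by norm_num))

lemma step (hc : ∀ n, |c n| ≤ 1) {v : ℝ} (hv : 0 < v) (h0 : F c v = 0) :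
    ∃ c' : ℕ → ℝ, (∀ n, |c' n| ≤ 1) ∧ ∀ u : ℂ, 0 ≤ u.re → F c u * (u + v) = (v - u) * F c' u := by
  have h1 : ∀ n : ℕ, |c n * ((v - ((n : ℝ) + 1) ^ 2) / (v + ((n : ℝ) + 1) ^ 2))| ≤ 1 := fun n => by
    have h2 : (0 : ℝ) < ((n : ℝ) + 1) ^ 2 := by positivity
    rw [abs_mul]
    refine mul_le_one₀ (hc n) (abs_nonneg _) ?_
    rw [abs_div, abs_of_pos (add_pos hv h2), div_le_one (add_pos hv h2), abs_le]
    constructor <;> linarith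
  refine ⟨_, h1, fun u hu => ?_⟩
  have hv' : 0 ≤ (v : ℂ).re := by simpa using hv.le
  have h2 := ((hasSum_F hc hu).mul_right (u + v)).sub ((hasSum_F h1 hu).mul_left (v - u))
  have h3 := (hasSum_F hc hv').mul_left (2 * (v : ℂ))
  rw [h0, mul_zero] at h3
  refine sub_eq_zero.1 (h2.unique (Eq.mpr (congrArg (fun f => HasSum f 0) (funext fun n => ?_)) h3))
  have h4 := den_ne hu n
  have h5 := den_ne hv' n
  push_cast
  field_simp
  ring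

lemma blaschke (T : Finset ℝ) : ∀ {c : ℕ → ℝ}, (∀ n, |c n| ≤ 1) →
    (∀ t ∈ T, 0 < t ∧ F c ((t ^ 2 : ℝ) : ℂ) = 0) → ∀ {u : ℂ} {ρ : ℝ}, 0 ≤ u.re → 0 ≤ ρ →
    (∀ t ∈ T, ‖((t ^ 2 : ℝ) : ℂ) - u‖ ≤ ρ * ‖u + (t ^ 2 : ℝ)‖) → ‖F c u‖ ≤ 2 * ρ ^ T.card := by
  classical
  induction T using Finset.induction_on with
  | empty => intro c hc _ u ρ hu _ _; simpa using norm_F_le hc hu
  | insert s T hs ih =>
    intro c hc hT u ρ hu hρ h
    obtain ⟨h1, h2⟩ := hT s (mem_insert_self s T)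
    obtain ⟨c', h3, h4⟩ := step hc (by positivity) h2
    have h5 := ih h3 (fun t ht => by
      obtain ⟨h5, h6⟩ := hT t (mem_insert_of_mem ht)
      have h7 := h4 ((t ^ 2 : ℝ) : ℂ) (by rw [ofReal_re]; positivity)
      rw [h6, zero_mul] at h7
      refine ⟨h5, (mul_eq_zero.1 h7.symm).resolve_left fun h8 => hs ?_⟩
      have h9 : s ^ 2 = t ^ 2 := by exact_mod_cast sub_eq_zero.1 h8
      rwa [(pow_left_inj₀ h1.le h5.le two_ne_zero).1 h9]) hu hρ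
      (fun t ht => h t (mem_insert_of_mem ht))
    have h6 : 0 < ‖u + (s ^ 2 : ℝ)‖ := lt_of_lt_of_le (by
      rw [add_re, ofReal_re]; positivity) (re_le_norm _)
    have h7 := congrArg norm (h4 u hu)
    rw [norm_mul, norm_mul] at h7
    refine le_of_mul_le_mul_right ?_ h6
    rw [h7, card_insert_of_notMem hs, pow_succ ρ]
    calc _ ≤ (ρ * ‖u + (s ^ 2 : ℝ)‖) * (2 * ρ ^ T.card) := by
          gcongr
          exact h s (mem_insert_self s T)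
      _ = _ := by ring

lemma small (hc : ∀ n, |c n| ≤ 1) (h0 : |c 0| = 1) {v : ℝ} (h1 : 0 ≤ v) (h2 : v ≤ 1 / 4) :
    1 / 10 ≤ ‖F c v‖ := by
  have hv : 0 ≤ (v : ℂ).re := by simpa using h1
  have h3 := (hasSum_nat_add_iff' 1).2 hs1
  have h4 := tsum_of_norm_bounded h3 (fun n => term_le hc hv (n + 1))
  have h5 := (hasSum_F hc hv).summable.tsum_eq_zero_add
  have h6 : 4 / 5 ≤ ‖(c 0 : ℂ) / (v + (((0 : ℕ) : ℂ) + 1) ^ 2)‖ := by
    have : (v : ℂ) + (((0 : ℕ) : ℂ) + 1) ^ 2 = ((v + 1 : ℝ) : ℂ) := by simp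
    rw [this, norm_div, norm_real, norm_real, Real.norm_eq_abs, h0, Real.norm_eq_abs,
      abs_of_pos (by linarith), le_div_iff₀ (by linarith)]
    linarith
  have h7 := norm_sub_le (F c v) (∑' n : ℕ, (c (n + 1) : ℂ) / (v + (((n + 1 : ℕ) : ℂ) + 1) ^ 2))
  rw [F, h5, add_sub_cancel_right, ← h5] at h7
  have h8 := zeta_le
  simp only [range_one, sum_singleton] at h4
  norm_num at h4 h8 h7 h6 ⊢
  rw [F]
  linarith

end Pool.Agent.Lib.MP_51e19e_an.Sq
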