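import Mathlib

/-!
A Toeplitz matrix of even size with signs off the diagonal and zeros on it has odd determinant, so
it cannot nearly kill many unitriangular vectors.
-/

namespace Pool.Agent.Lib.MP_51e19e_an.Sq

open Finset Matrix

lemma det_ne {n : ℕ} (hn : Even n) {b : ℤ → ℤ} (h0 : b 0 = 0) (h1 : ∀ k ≠ 0, b k = 1 ∨ b k = -1) :
    (Matrix.of fun i j : Fin n => b (i - j)).det ≠ 0 := by
  have h2 : (Int.castRingHom (ZMod 2)).mapMatrix (Matrix.of fun i j : Fin n => b (i - j)) =
      1 + replicateCol Unit (fun _ : Fin n => (1 : ZMod 2)) *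
        replicateRow Unit (fun _ : Fin n => (1 : ZMod 2)) := by
    ext i j
    by_cases h : i = j
    · subst h
      simp [h0, Matrix.mul_apply]
      decide
    · have h3 : (i : ℤ) - j ≠ 0 := fun e => h (Fin.ext (by omega))
      rcases h1 _ h3 with e | e <;> simp [e, h, Matrix.mul_apply]
  intro h
  have h3 := RingHom.map_det (Int.castRingHom (ZMod 2)) (Matrix.of fun i j : Fin n => b (i - j))
  rw [h, h2, det_one_add_replicateCol_mul_replicateRow] at h3
  have h4 : (n : ZMod 2) = 0 := (ZMod.natCast_eq_zero_iff n 2).2 hn.two_dvd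
  simp [dotProduct, h4] at h3

lemma det_le {n : ℕ} (A : Matrix (Fin n) (Fin n) ℂ) (β : Fin n → ℝ) (h : ∀ i j, ‖A i j‖ ≤ β j) :
    ‖A.det‖ ≤ n.factorial * ∏ j, β j := by
  rw [det_apply]
  refine (norm_sum_le _ _).trans ((sum_le_card_nsmul _ _ (∏ j, β j) fun σ _ => ?_).trans ?_)
  · have : ‖Equiv.Perm.sign σ • ∏ i, A (σ i) i‖ = ‖∏ i, A (σ i) i‖ := by
      rcases Int.units_eq_one_or (Equiv.Perm.sign σ) with e | e <;> simp [e]
    rw [this, norm_prod]
    exact prod_le_prod (fun _ _ => norm_nonneg _) fun j _ => h _ _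
  · simp [Fintype.card_perm]

lemma toeplitz {n M : ℕ} (hn : Even n) {b : ℤ → ℤ} (h0 : b 0 = 0)
    (h1 : ∀ k ≠ 0, b k = 1 ∨ b k = -1) {x : Fin M → Fin n} (hx : Function.Injective x)
    (g : Fin M → Fin n → ℂ) (g1 : ∀ i, g i (x i) = 1) (g0 : ∀ i l, l < i → g i (x l) = 0) {ε : ℝ}
    (hε : ∀ i (m : Fin n), ‖∑ r : Fin n, (b (m - r) : ℂ) * g i r‖ ≤ ε) :
    1 ≤ n.factorial * ε ^ M := by
  classical
  obtain ⟨G, hG⟩ : ∃ G : Matrix (Fin n) (Fin n) ℂ,
    G = Matrix.of (Function.extend x g fun c => Pi.single c 1) := ⟨_, rfl⟩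
  obtain ⟨ρ, hρ⟩ : ∃ ρ : Fin n → ℕ, ρ = Function.extend x (fun i => (i : ℕ)) fun _ => M := ⟨_, rfl⟩
  have G1 : ∀ i r, G (x i) r = g i r := fun i r => by rw [hG, of_apply, hx.extend_apply]
  have G2 : ∀ c, (¬ ∃ i, x i = c) → ∀ r, G c r = if r = c then 1 else 0 := fun c hc r => by
    rw [hG, of_apply, Function.extend_apply' _ _ _ hc, Pi.single_apply]
  have r1 : ∀ i, ρ (x i) = i := fun i => by rw [hρ, hx.extend_apply]
  have r2 : ∀ c, (¬ ∃ i, x i = c) → ρ c = M := fun c hc => by
    rw [hρ, Function.extend_apply' _ _ _ hc]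
  have key : ∀ c r, ρ r ≤ ρ c → G c r = if r = c then 1 else 0 := fun c r h => by
    by_cases hc : ∃ i, x i = c
    · obtain ⟨i, rfl⟩ := hc
      by_cases hr : ∃ l, x l = r
      · obtain ⟨l, rfl⟩ := hr
        rw [r1, r1] at h
        rcases (Fin.le_def.2 h).eq_or_lt with e | e
        · rw [e, G1, g1, if_pos rfl]
        · rw [G1, g0 _ _ e, if_neg (hx.ne e.ne)]
      · rw [r1, r2 r hr] at h
        exact absurd i.2 (not_lt.2 h)
    · exact G2 c hc r
  have hT : G.BlockTriangular ρ := fun c r h => by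
    rw [key c r h.le, if_neg (fun e => by rw [e] at h; exact lt_irrefl _ h)]
  have hd : G.det = 1 := by
    rw [hT.det]
    refine prod_eq_one fun a _ => ?_
    have : G.toSquareBlock ρ a = 1 := by
      ext c r
      rw [toSquareBlock_def, of_apply, key _ _ (r.2.trans c.2.symm).le, one_apply]
      simp only [Subtype.ext_iff, eq_comm]
    rw [this, det_one]
  have h2 := det_le ((Int.castRingHom ℂ).mapMatrix (Matrix.of fun i j : Fin n => b (i - j)) * Gᵀ)
    (Function.extend x (fun _ => ε) fun _ => 1) (fun m c => by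
      simp only [mul_apply, transpose_apply, RingHom.mapMatrix_apply, map_apply, of_apply,
        eq_intCast]
      by_cases hc : ∃ i, x i = c
      · obtain ⟨i, rfl⟩ := hc
        simpa only [G1, hx.extend_apply] using hε i m
      · rw [Function.extend_apply' _ _ _ hc]
        simp only [G2 c hc, mul_ite, mul_one, mul_zero, sum_ite_eq', mem_univ, if_true]
        by_cases h : (m : ℤ) - c = 0
        · simp [h, h0]
        · rcases h1 _ h with e | e <;> simp [e])
  rw [det_mul, det_transpose, hd, mul_one, ← RingHom.map_det, eq_intCast, Complex.norm_intCast,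
    ← Fintype.prod_of_injective x hx (fun _ => ε) (Function.extend x (fun _ => ε) fun _ => 1)
      (fun c hc => Function.extend_apply' (fun _ => ε) (fun _ => (1 : ℝ)) c hc)
      (fun i => (hx.extend_apply (fun _ => ε) (fun _ => (1 : ℝ)) i).symm)] at h2
  simp only [prod_const, card_univ, Fintype.card_fin] at h2
  refine le_trans ?_ h2
  exact_mod_cast Int.one_le_abs (det_ne hn h0 h1)

end Pool.Agent.Lib.MP_51e19e_an.Sq
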