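import Pool.Agent.Lib.MP_51e19e_an.Sq.Rat
import Pool.Agent.Lib.MP_51e19e_an.Sq.Det

/-!
The test functions, and the bound for the number of zeros in one dyadic range.
-/

namespace Pool.Agent.Lib.MP_51e19e_an.Sq

open Complex Finset

/-- the poles -/
noncomputable def z (S : ℝ) (P j : ℕ) : ℂ := I * ((S + j * (S / P) : ℝ) : ℂ)

/-- the test functions -/
noncomputable def g (S h : ℝ) (P i : ℕ) (y : ℂ) : ℂ :=
  (∏ l ∈ range i, (y - (l * h : ℝ))) / (∏ l ∈ range i, (((i * h : ℝ) : ℂ) - (l * h : ℝ))) *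
    ((∏ j ∈ range P, (((i * h : ℝ) : ℂ) - z S P j)) / ∏ j ∈ range P, (y - z S P j))

variable {S h : ℝ} {P M L i : ℕ}

lemma pole_mem (hS : 0 < S) {j : ℕ} (hj : j ∈ range P) :
    S ≤ S + j * (S / P) ∧ S + j * (S / P) ≤ 2 * S := by
  have h1 : (j : ℝ) < P := by exact_mod_cast mem_range.1 hj
  have h2 : (0 : ℝ) < P := lt_of_le_of_lt j.cast_nonneg h1
  have h3 : j * (S / P) ≤ P * (S / P) := by gcongr
  rw [mul_div_cancel₀ _ h2.ne'] at h3
  exact ⟨le_add_of_nonneg_right (by positivity), by linarith⟩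

lemma norm_sq_sub (y s : ℝ) : ‖(y : ℂ) - I * s‖ ^ 2 = y ^ 2 + s ^ 2 := by
  rw [← normSq_eq_norm_sq, normSq_apply]
  simp
  ring

lemma ne_z (hS : 0 < S) (y : ℝ) {j : ℕ} (hj : j ∈ range P) : (y : ℂ) ≠ z S P j := fun e => by
  have h1 := norm_sq_sub y (S + j * (S / P))
  have h2 := (pole_mem hS hj).1
  rw [← z, e, sub_self, norm_zero] at h1
  nlinarith [sq_nonneg y]

lemma g_one (hS : 0 < S) (hh : 0 < h) : g S h P i (i * h : ℝ) = 1 := by
  rw [g, div_self, div_self, mul_one]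
  · exact prod_ne_zero_iff.2 fun j hj => sub_ne_zero.2 (ne_z hS _ hj)
  · rw [← norm_pos_iff, newton_norm i hh]; positivity

lemma g_zero {l : ℕ} (hl : l < i) : g S h P i (l * h : ℝ) = 0 := by
  rw [g, prod_eq_zero (mem_range.2 hl) (sub_self _), zero_div, zero_mul]

lemma g_tail (hh : 0 < h) (hi : i < M) (hS : S = 8 * M * h) {y : ℝ} (hy : S / 2 ≤ |y|) :
    ‖g S h (M + 2 + L * M) i y‖ ≤
      Real.exp (8 * M) * 6 ^ (M + 2) * 0.98 ^ (L * M) * S ^ 2 * (1 / y ^ 2) := by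
  have hM : (i : ℝ) < M := by exact_mod_cast hi
  have hM0 : (0 : ℝ) < M := lt_of_le_of_lt i.cast_nonneg hM
  have hS0 : 0 < S := by rw [hS]; positivity
  have hy0 : 0 < |y| := by linarith
  have hx0 : 0 ≤ i * h := by positivity
  have hx1 : i * h ≤ S / 8 := by rw [hS]; nlinarith
  have h1 := newton_le (M := M) hi.le (A := 8 * M) (lam := |y| / (S / 2)) (y := y) hh
    (by positivity) (by rw [le_div_iff₀ (by positivity)]; linarith) (fun l hl => by
      have h2 : (l : ℝ) < i := by exact_mod_cast mem_range.1 hl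
      have h3 : l * h ≤ i * h := by gcongr
      rw [← hS, ← ofReal_sub, norm_real, Real.norm_eq_abs,
        show S * (|y| / (S / 2)) = 2 * |y| by field_simp]
      refine (abs_sub _ _).trans ?_
      rw [abs_of_nonneg (by positivity : 0 ≤ l * h)]
      linarith)
  generalize hP : M + 2 + L * M = P
  have h2 : ∀ j ∈ range P, ‖(((i * h : ℝ) : ℂ) - z S P j) / (y - z S P j)‖ ≤ 3 * S / |y| ∧
      ‖(((i * h : ℝ) : ℂ) - z S P j) / (y - z S P j)‖ ≤ 0.98 := fun j hj => by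
    obtain ⟨h3, h4⟩ := pole_mem hS0 hj
    have h5 := norm_pos_iff.2 (sub_ne_zero.2 (ne_z hS0 y hj))
    rw [norm_div, div_le_iff₀ h5, div_le_iff₀ h5, div_mul_eq_mul_div, le_div_iff₀ hy0, z]
    generalize S + j * (S / P) = s at *
    generalize i * h = x at *
    have h6 : x ^ 2 ≤ S ^ 2 / 64 := by nlinarith
    have h7 : s ^ 2 ≤ 4 * S ^ 2 := by nlinarith
    have h8 : S ^ 2 / 4 ≤ y ^ 2 := by rw [← sq_abs y]; nlinarith
    constructor <;> refine le_of_pow_le_pow_left₀ two_ne_zero (by positivity) ?_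
    · rw [mul_pow, mul_pow, norm_sq_sub, norm_sq_sub, sq_abs]
      exact mul_le_mul (by nlinarith) (by nlinarith) (by positivity) (by positivity)
    · rw [mul_pow, norm_sq_sub, norm_sq_sub]
      nlinarith
  have h3 : ‖(∏ j ∈ range P, (((i * h : ℝ) : ℂ) - z S P j)) / ∏ j ∈ range P, (y - z S P j)‖ ≤
      (3 * S / |y|) ^ (M + 2) * 0.98 ^ (L * M) := by
    rw [← prod_div_distrib, norm_prod]
    generalize z S P = w at *
    subst hP
    rw [prod_range_add]
    gcongr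
    · simpa only [prod_const, card_range] using prod_le_prod (s := range (M + 2))
        (fun _ _ => norm_nonneg _) fun j hj => (h2 j (mem_range.2 (by have := mem_range.1 hj; omega))).1
    · simpa only [prod_const, card_range] using prod_le_prod (s := range (L * M))
        (fun _ _ => norm_nonneg _) fun j hj => (h2 (M + 2 + j) (mem_range.2 (by have := mem_range.1 hj; omega))).2
  rw [g, norm_mul]
  calc _ ≤ Real.exp (8 * M) * (|y| / (S / 2)) ^ M * ((3 * S / |y|) ^ (M + 2) * 0.98 ^ (L * M)) := by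
        gcongr
    _ = Real.exp (8 * M) * 6 ^ M * 0.98 ^ (L * M) * (9 * S ^ 2) * (1 / y ^ 2) := by
        have : (|y| / (S / 2)) ^ M * (3 * S / |y|) ^ M = 6 ^ M := by
          rw [← mul_pow]; congr 1; field_simp; norm_num
        rw [← this, pow_add, div_pow _ _ 2, sq_abs]
        ring
    _ ≤ _ := by
        rw [pow_add]
        have : 0 ≤ Real.exp (8 * M) * 6 ^ M * 0.98 ^ (L * M) * S ^ 2 * (1 / y ^ 2) := by positivity
        linarith

lemma g_frac (hh : 0 < h) (hi : i < M) (hS : S = 8 * M * h) (hP : M ≤ P) :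
    ∃ μ : ℕ → ℂ, (∀ j ∈ range P, ‖μ j‖ ≤ Real.exp (24 * M) * 3 ^ P * (S * Real.exp (2 * P))) ∧
      ∀ y : ℝ, g S h P i y = ∑ j ∈ range P, μ j * (y - z S P j)⁻¹ := by
  have hM : (i : ℝ) < M := by exact_mod_cast hi
  have hM0 : (0 : ℝ) < M := lt_of_le_of_lt i.cast_nonneg hM
  have hS0 : 0 < S := by rw [hS]; positivity
  have h0 : ∀ l ≤ i, ∀ j ∈ range P, ‖((l * h : ℝ) : ℂ) - z S P j‖ ≤ 3 * S := fun l hl j hj => by
    obtain ⟨h3, h4⟩ := pole_mem hS0 hj
    have h1 : (l : ℝ) ≤ i := by exact_mod_cast hl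
    have h2 : l * h ≤ S / 8 := by rw [hS]; nlinarith
    refine (norm_sub_le _ _).trans ?_
    rw [z, norm_mul, norm_I, norm_real, norm_real, Real.norm_eq_abs, Real.norm_eq_abs,
      abs_of_nonneg (by positivity), abs_of_nonneg (by linarith)]
    linarith
  refine ⟨fun j => (∏ l ∈ range i, (z S P j - (l * h : ℝ))) /
    (∏ l ∈ range i, (((i * h : ℝ) : ℂ) - (l * h : ℝ))) *
    ((∏ j ∈ range P, (((i * h : ℝ) : ℂ) - z S P j)) * Lagrange.nodalWeight (range P) (z S P) j),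
    fun j hj => ?_, fun y => ?_⟩
  · have h1 := newton_le (M := M) hi.le (A := 24 * M) (lam := 1) (y := z S P j) hh
      (by positivity) le_rfl (fun l hl => by
        rw [norm_sub_rev]
        exact (h0 l (mem_range.1 hl).le j hj).trans (by rw [hS]; linarith))
    have h2 : ‖∏ j ∈ range P, (((i * h : ℝ) : ℂ) - z S P j)‖ ≤ 3 ^ P * S ^ P := by
      rw [norm_prod, ← mul_pow]
      simpa using prod_le_prod (fun _ _ => norm_nonneg _) (h0 i le_rfl)
    have h3 : ‖Lagrange.nodalWeight (range P) (z S P) j‖ * S ^ P ≤ S * Real.exp (2 * P) :=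
      weight_le (mem_range.1 hj) hS0
    rw [one_pow, mul_one] at h1
    rw [norm_mul, norm_mul]
    calc _ ≤ Real.exp (24 * M) * (3 ^ P * S ^ P * ‖Lagrange.nodalWeight (range P) (z S P) j‖) := by
          gcongr
      _ = Real.exp (24 * M) * 3 ^ P * (‖Lagrange.nodalWeight (range P) (z S P) j‖ * S ^ P) := by
          ring
      _ ≤ _ := by gcongr
  · have h1 := parfrac (hi.trans_le hP) (fun l => (l * h : ℝ)) (z S P) (fun j hj l _ e => by
      have h2 : (0 : ℝ) < P := by exact_mod_cast (by omega : 0 < P)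
      have h3 : S + j * (S / P) = S + l * (S / P) := by
        exact_mod_cast mul_left_cancel₀ I_ne_zero e
      exact_mod_cast mul_right_cancel₀ (div_pos hS0 h2).ne' (add_left_cancel h3))
      (fun j hj => ne_z hS0 y hj)
    rw [g, show ∀ a b c d : ℂ, a / b * (c / d) = c / b * (a / d) from fun _ _ _ _ => by ring, h1,
      mul_sum]
    exact sum_congr rfl fun j _ => by ring

lemma factor_le {s m t : ℝ} (hS : 0 < S) (h1 : S ≤ s) (h2 : s ≤ 2 * S) (h3 : |m| ≤ S / 2)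
    (h4 : S / 2 ≤ t) (h5 : t ≤ 2 * S) : 0 ≤ (((s : ℂ) + I * m) ^ 2).re ∧
    ‖((t ^ 2 : ℝ) : ℂ) - (s + I * m) ^ 2‖ ≤ 0.999 * ‖(s + I * m) ^ 2 + (t ^ 2 : ℝ)‖ := by
  have e1 : (((s : ℂ) + I * m) ^ 2).re = s ^ 2 - m ^ 2 := by simp [pow_two]
  have e2 : (((s : ℂ) + I * m) ^ 2).im = 2 * s * m := by simp [pow_two]; ring
  have a1 : m ^ 2 ≤ S ^ 2 / 4 := by rw [← sq_abs m]; nlinarith [abs_nonneg m]
  have a2 : S ^ 2 ≤ s ^ 2 := by nlinarith
  have a3 : s ^ 2 ≤ 4 * S ^ 2 := by nlinarith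
  have a4 : S ^ 2 / 4 ≤ t ^ 2 := by nlinarith
  have a5 : t ^ 2 ≤ 4 * S ^ 2 := by nlinarith
  have a6 : (2 * s * m) ^ 2 ≤ 4 * (S ^ 2) ^ 2 := by
    have : s ^ 2 * m ^ 2 ≤ 4 * S ^ 2 * (S ^ 2 / 4) := by gcongr
    nlinarith
  have a7 : 3 / 4 * S ^ 2 ≤ s ^ 2 - m ^ 2 := by linarith
  have a8 : s ^ 2 - m ^ 2 ≤ 4 * S ^ 2 := by nlinarith [sq_nonneg m]
  have a0 : 0 < S ^ 2 := by positivity
  refine ⟨by rw [e1]; linarith, le_of_pow_le_pow_left₀ two_ne_zero (by positivity) ?_⟩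
  rw [mul_pow, ← normSq_eq_norm_sq, ← normSq_eq_norm_sq, normSq_apply, normSq_apply, sub_re,
    sub_im, add_re, add_im, e1, e2, ofReal_re, ofReal_im]
  generalize s ^ 2 - m ^ 2 = p at *
  generalize 2 * s * m = r at *
  generalize t ^ 2 = v at *
  generalize S ^ 2 = A at *
  have b1 : 3 / 4 * A * (A / 4) ≤ p * v := by gcongr; linarith
  have b2 : (p + v) ^ 2 ≤ (8 * A) ^ 2 := by gcongr <;> linarith
  nlinarith

lemma exists_small {D θ : ℝ} (hD : 0 < D) (hθ : θ < 1) : ∃ L : ℕ, D * θ ^ L ≤ Real.exp (-1) := by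
  obtain ⟨L, hL⟩ := exists_pow_lt_of_lt_one (div_pos (Real.exp_pos (-1)) hD) hθ
  exact ⟨L, by rw [lt_div_iff₀ hD] at hL; linarith⟩

lemma exists_b {a : ℕ → ℝ} (ha : ∀ n, a n = 1 ∨ a n = -1) : ∃ b : ℤ → ℤ, b 0 = 0 ∧
    (∀ k ≠ 0, b k = 1 ∨ b k = -1) ∧ (∀ n : ℕ, (b (n + 1) : ℝ) = a n) ∧ ∀ k, b (-k) = b k := by
  refine ⟨fun k => if k = 0 then 0 else if a (k.natAbs - 1) = 1 then 1 else -1, if_pos rfl,
    fun k hk => ?_, fun n => ?_, fun k => by simp⟩
  · simp only [if_neg hk]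
    split_ifs <;> simp
  · have h1 : ((n : ℤ) + 1).natAbs - 1 = n := by omega
    have h2 : (n : ℤ) + 1 ≠ 0 := by omega
    simp only [if_neg h2, h1]
    rcases ha n with e | e <;> rw [e] <;> norm_num

theorem core : ∃ C : ℕ, ∀ a : ℕ → ℝ, (∀ n, a n = 1 ∨ a n = -1) → ∀ (M h : ℕ) (S : ℝ), 0 < M →
    0 < h → S = 8 * M * h → S * Real.log S < M ^ 2 → ∀ T : Finset ℝ,
    (∀ t ∈ T, S / 2 ≤ t ∧ t ≤ 2 * S ∧ F a ((t ^ 2 : ℝ) : ℂ) = 0) → T.card ≤ C * M := by
  have hZ : 0 ≤ Z := tsum_nonneg fun _ => by positivity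
  obtain ⟨L, hL⟩ := exists_small (D := Real.exp 8 * 6 * 16 * (72 * (Z + 1))) (θ := 0.98)
    (by positivity) (by norm_num)
  obtain ⟨C, hC⟩ := exists_small (D := (6 * Real.exp 2) ^ (L + 3) * Real.exp 24 * 24 * 16)
    (θ := 0.999) (by positivity) (by norm_num)
  refine ⟨C, fun a ha M h S hM hh hS hlog T hT => ?_⟩
  by_contra hK
  rw [not_le] at hK
  obtain ⟨b, b0, b1, b2, b3⟩ := exists_b ha
  have ha1 : ∀ n, |a n| ≤ 1 := fun n => by rcases ha n with e | e <;> simp [e]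
  have hb1 : ∀ k, |b k| ≤ 1 := fun k => by
    by_cases e : k = 0
    · simp [e, b0]
    · rcases b1 k e with e | e <;> simp [e]
  have hM1 : (1 : ℝ) ≤ M := by exact_mod_cast hM
  have hh1 : (1 : ℝ) ≤ h := by exact_mod_cast hh
  have hh0 : (0 : ℝ) < h := by linarith
  have hS8 : 8 ≤ S := by rw [hS]; nlinarith
  have hS0 : 0 < S := by linarith
  have hS2 : S ^ 2 ≤ 16 ^ M := by
    have h1 : 1 ≤ Real.log S := by
      rw [Real.le_log_iff_exp_le hS0]
      exact Real.exp_one_lt_d9.le.trans (by linarith)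
    have h2 : (M : ℝ) ≤ 2 ^ M := by exact_mod_cast Nat.lt_two_pow_self.le
    have h3 : S ≤ (2 ^ M) ^ 2 := by nlinarith
    calc S ^ 2 ≤ ((2 ^ M) ^ 2) ^ 2 := by gcongr
      _ = _ := by rw [← pow_mul, ← pow_mul, mul_comm, pow_mul]; norm_num
  obtain ⟨N, hN⟩ : ∃ N : ℕ, N = 4 * M * h := ⟨_, rfl⟩
  have hNS : (N : ℝ) = S / 2 := by rw [hN, hS]; push_cast; ring
  obtain ⟨P, hP⟩ : ∃ P : ℕ, P = M + 2 + L * M := ⟨_, rfl⟩
  have t1 : Real.exp (8 * M) * 6 ^ (M + 2) * 0.98 ^ (L * M) * S ^ 2 * Z ≤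
      Real.exp (-1) ^ M / 2 := by
    have h1 : 72 * (Z + 1) ≤ (72 * (Z + 1)) ^ M := le_self_pow₀ (by linarith) hM.ne'
    calc _ = Real.exp 8 ^ M * 6 ^ M * S ^ 2 * (72 * Z) * (0.98 ^ L) ^ M / 2 := by
          rw [mul_comm (8 : ℝ), Real.exp_nat_mul, pow_mul]; ring
      _ ≤ Real.exp 8 ^ M * 6 ^ M * 16 ^ M * (72 * (Z + 1)) ^ M * (0.98 ^ L) ^ M / 2 := by
          gcongr; linarith
      _ = (Real.exp 8 * 6 * 16 * (72 * (Z + 1)) * 0.98 ^ L) ^ M / 2 := by simp only [mul_pow]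
      _ ≤ _ := by gcongr
  have t2 : P * (Real.exp (24 * M) * 3 ^ P * (S * Real.exp (2 * P)) * (2 * (3 * S)) *
      (2 * 0.999 ^ T.card)) ≤ Real.exp (-1) ^ M / 2 := by
    have h1 : (P : ℝ) ≤ 2 ^ P := by exact_mod_cast Nat.lt_two_pow_self.le
    have h2 : (24 : ℝ) ≤ 24 ^ M := le_self_pow₀ (by norm_num) hM.ne'
    have h3 : (0.999 : ℝ) ^ T.card ≤ (0.999 ^ C) ^ M := by
      rw [← pow_mul]
      exact pow_le_pow_of_le_one (by norm_num) (by norm_num) hK.le
    have h4 : (6 * Real.exp 2) ^ P ≤ ((6 * Real.exp 2) ^ (L + 3)) ^ M := by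
      rw [← pow_mul]
      exact pow_le_pow_right₀ (by linarith [Real.one_le_exp zero_le_two]) (by rw [hP]; nlinarith)
    calc _ ≤ 2 ^ P * (Real.exp (24 * M) * 3 ^ P * (S * Real.exp (2 * P)) * (2 * (3 * S)) *
          (2 * 0.999 ^ T.card)) := by gcongr
      _ = (6 * Real.exp 2) ^ P * Real.exp 24 ^ M * 24 * S ^ 2 * 0.999 ^ T.card / 2 := by
          rw [mul_comm (24 : ℝ), mul_comm (2 : ℝ) P, Real.exp_nat_mul, Real.exp_nat_mul,
            show (6 : ℝ) = 2 * 3 by norm_num, mul_pow, mul_pow]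
          ring
      _ ≤ ((6 * Real.exp 2) ^ (L + 3)) ^ M * Real.exp 24 ^ M * 24 ^ M * 16 ^ M *
          (0.999 ^ C) ^ M / 2 := by gcongr
      _ = ((6 * Real.exp 2) ^ (L + 3) * Real.exp 24 * 24 * 16 * 0.999 ^ C) ^ M / 2 := by
          simp only [mul_pow]
      _ ≤ _ := by gcongr
  have hx : ∀ i : Fin M, N + i * h < 2 * N := fun i => by have := i.2; nlinarith
  have e1 : ∀ i : Fin M, ((((N + i * h : ℕ) : ℤ) - N : ℤ) : ℝ) = i * h := fun i => by
    push_cast; ring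
  have key := toeplitz (n := 2 * N) (M := M) (even_two_mul N) b0 b1
    (x := fun i => ⟨N + i * h, hx i⟩)
    (fun i l e => Fin.ext (Nat.eq_of_mul_eq_mul_right hh (by simpa using e)))
    (fun i r => g S h P i ((((r : ℕ) : ℤ) - N : ℤ) : ℝ))
    (fun i => by simp only [e1]; exact g_one hS0 hh0)
    (fun i l hl => by simp only [e1]; exact g_zero hl) (ε := Real.exp (-1) ^ M) (fun i m' => by
      obtain ⟨μ, hμ, hg⟩ := g_frac (P := P) hh0 i.2 hS (by omega)
      obtain ⟨m, hm⟩ : ∃ m : ℤ, m = m' - N := ⟨_, rfl⟩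
      have hm1 : |(m : ℝ)| ≤ S / 2 := by
        have := m'.2
        rw [← hNS]
        exact_mod_cast (abs_le.2 ⟨by omega, by omega⟩ : |m| ≤ N)
      have hf := fun j (hj : j ∈ range P) t (h4 : S / 2 ≤ t) (h5 : t ≤ 2 * S) =>
        factor_le hS0 (pole_mem hS0 hj).1 (pole_mem hS0 hj).2 hm1 h4 h5
      have hre := fun j hj => (hf j hj S (by linarith) (by linarith)).1
      have hE := pair_sum ha1 (range P) μ (fun j => S + j * (S / P)) m hre
      have h1 := window b0 hb1 b2 b3 (fun y : ℤ => g S h P i (y : ℝ)) (N := N) (by positivity)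
        (fun y hy => hP ▸ g_tail hh0 i.2 hS (y := y) (by rw [← hNS]; exact_mod_cast hy)) m
        (Eq.mpr (congrArg (fun f => HasSum f _) (funext fun n => by
          simp only [hg, z]; push_cast; rfl)) hE)
      have h2 := (norm_sum_le _ _).trans (sum_le_card_nsmul (range P) (fun j => ‖μ j *
        (2 * I * (((S + j * (S / P) : ℝ) : ℂ) + I * (m : ℝ))) *
        F a ((((S + j * (S / P) : ℝ) : ℂ) + I * (m : ℝ)) ^ 2)‖)
        (Real.exp (24 * M) * 3 ^ P * (S * Real.exp (2 * P)) * (2 * (3 * S)) *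
          (2 * 0.999 ^ T.card)) fun j hj => by
          have h3 := blaschke T ha1 (fun t ht => ⟨by linarith [(hT t ht).1], (hT t ht).2.2⟩)
            (hre j hj) (by norm_num) fun t ht => (hf j hj t (hT t ht).1 (hT t ht).2.1).2
          have h4 : ‖((S + j * (S / P) : ℝ) : ℂ) + I * (m : ℝ)‖ ≤ 3 * S := by
            obtain ⟨h5, h6⟩ := pole_mem hS0 hj
            refine (norm_add_le _ _).trans ?_
            rw [norm_mul, norm_I, norm_real, norm_real, Real.norm_eq_abs, Real.norm_eq_abs,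
              abs_of_nonneg (by linarith)]
            linarith
          have h5 := hμ j hj
          rw [norm_mul, norm_mul, norm_mul, norm_mul, norm_I, Complex.norm_ofNat, mul_one]
          gcongr)
      rw [card_range, nsmul_eq_mul] at h2
      simp only [hm, sub_add_cancel] at h1 h2
      linarith)
  have h1 : ((2 * N).factorial : ℝ) ≤ Real.exp (S * Real.log S) := by
    have h2 : ((2 * N : ℕ) : ℝ) = S := by push_cast; linarith
    rw [← h2, Real.exp_nat_mul, Real.exp_log (h2 ▸ hS0)]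
    exact_mod_cast Nat.factorial_le_pow _
  have h2 : (Real.exp (-1) ^ M) ^ M = Real.exp (-M ^ 2) := by
    rw [← Real.exp_nat_mul, ← Real.exp_nat_mul]; congr 1; ring
  have h3 := key.trans (mul_le_mul_of_nonneg_right h1 (by positivity))
  rw [h2, ← Real.exp_add, Real.one_le_exp_iff] at h3
  linarith

end Pool.Agent.Lib.MP_51e19e_an.Sq
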