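import Pool.Agent.Lib.MP_51e19e_an.Sq.Bl

/-!
Partial fractions, Newton polynomials, and convolution of an even sequence with a sum of simple
fractions.
-/

namespace Pool.Agent.Lib.MP_51e19e_an.Sq

open Complex Finset

lemma parfrac {P i : ℕ} (hi : i < P) (x z : ℕ → ℂ) (hz : Set.InjOn z (range P)) {y : ℂ}
    (hy : ∀ j ∈ range P, y ≠ z j) :
    (∏ l ∈ range i, (y - x l)) / ∏ j ∈ range P, (y - z j) =
      ∑ j ∈ range P, Lagrange.nodalWeight (range P) z j * (∏ l ∈ range i, (z j - x l)) *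
        (y - z j)⁻¹ := by
  have h1 := Lagrange.eq_interpolate (f := Lagrange.nodal (range i) x) hz (by
    rw [Lagrange.degree_nodal, card_range, card_range]; exact_mod_cast hi)
  have h2 := congrArg (Polynomial.eval y) h1
  rw [Lagrange.eval_interpolate_not_at_node _ hy] at h2
  simp only [Lagrange.eval_nodal] at h2
  rw [h2, mul_div_cancel_left₀ _ (prod_ne_zero_iff.2 fun j hj => sub_ne_zero.2 (hy j hj))]
  exact sum_congr rfl fun j _ => by ring

lemma prod_desc (j : ℕ) : ∏ l ∈ range j, ((j : ℝ) - l) = j.factorial := by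
  rw [← Nat.descFactorial_self, Nat.descFactorial_eq_prod_range, Nat.cast_prod]
  exact prod_congr rfl fun l hl => (Nat.cast_sub (mem_range.1 hl).le).symm

lemma prod_erase (j r : ℕ) :
    ∏ l ∈ (range (j + 1 + r)).erase j, |(j : ℝ) - l| = j.factorial * r.factorial := by
  induction r with
  | zero =>
    rw [add_zero, range_add_one, erase_insert notMem_range_self, ← prod_desc]
    simp only [Nat.factorial_zero, Nat.cast_one, mul_one]
    exact prod_congr rfl fun l hl => abs_of_nonneg (sub_nonneg.2 (by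
      exact_mod_cast (mem_range.1 hl).le))
  | succ r ih =>
    rw [← add_assoc, range_add_one, erase_insert_of_ne (by omega), prod_insert (by simp), ih,
      Nat.factorial_succ, abs_sub_comm, abs_of_nonneg (by push_cast; linarith [r.cast_nonneg (α := ℝ)])]
    push_cast
    ring

lemma weight_le {P j : ℕ} (hj : j < P) {S : ℝ} (hS : 0 < S) :
    ‖Lagrange.nodalWeight (range P) (fun l : ℕ => I * ((S + l * (S / P) : ℝ) : ℂ)) j‖ * S ^ P ≤
      S * Real.exp (2 * P) := by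
  obtain ⟨r, rfl⟩ : ∃ r, P = j + 1 + r := ⟨P - (j + 1), by omega⟩
  generalize hP : j + 1 + r = P at *
  have h0 : (0 : ℝ) < P := by exact_mod_cast (by omega : 0 < P)
  have h1 : ∀ l : ℕ, ‖(I * ((S + j * (S / P) : ℝ) : ℂ) - I * ((S + l * (S / P) : ℝ) : ℂ))⁻¹‖ =
      |(j : ℝ) - l|⁻¹ * (P / S) := fun l => by
    rw [← mul_sub, ← ofReal_sub, norm_inv, norm_mul, norm_I, one_mul, norm_real, Real.norm_eq_abs,
      show S + j * (S / P) - (S + l * (S / P)) = (j - l) * (S / P) by ring, abs_mul,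
      abs_of_pos (div_pos hS h0), mul_inv, inv_div]
  have h2 : #((range P).erase j) = j + r := by
    rw [card_erase_of_mem (mem_range.2 hj), card_range]; omega
  rw [Lagrange.nodalWeight, norm_prod]
  simp only [h1]
  rw [prod_mul_distrib, prod_inv_distrib, prod_const, h2, ← hP, prod_erase, hP]
  have h3 := Real.pow_div_factorial_le_exp (P : ℝ) h0.le j
  have h4 := Real.pow_div_factorial_le_exp (P : ℝ) h0.le r
  calc _ = S * ((P : ℝ) ^ j / j.factorial * ((P : ℝ) ^ r / r.factorial)) := by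
        rw [show S ^ P = S ^ (j + r) * S by rw [← hP, ← pow_succ]; congr 1; omega, div_pow]
        field_simp
        ring
    _ ≤ S * (Real.exp P * Real.exp P) := by gcongr
    _ = _ := by rw [← Real.exp_add, two_mul]

lemma newton_norm (i : ℕ) {h : ℝ} (hh : 0 < h) :
    ‖∏ l ∈ range i, (((i * h : ℝ) : ℂ) - (l * h : ℝ))‖ = i.factorial * h ^ i := by
  rw [← prod_desc, norm_prod, ← card_range i, ← prod_const, card_range, ← prod_mul_distrib]
  refine prod_congr rfl fun l hl => ?_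
  have : (l : ℝ) ≤ i := by exact_mod_cast (mem_range.1 hl).le
  rw [← ofReal_sub, norm_real, Real.norm_eq_abs, ← sub_mul,
    abs_of_nonneg (mul_nonneg (sub_nonneg.2 this) hh.le)]

lemma newton_le {i M : ℕ} (hi : i ≤ M) {h A lam : ℝ} (hh : 0 < h) (hA : 0 ≤ A) (hl : 1 ≤ lam)
    {y : ℂ} (hy : ∀ l ∈ range i, ‖y - (l * h : ℝ)‖ ≤ A * h * lam) :
    ‖(∏ l ∈ range i, (y - (l * h : ℝ))) / ∏ l ∈ range i, (((i * h : ℝ) : ℂ) - (l * h : ℝ))‖ ≤
      Real.exp A * lam ^ M := by
  have h1 : ‖∏ l ∈ range i, (y - (l * h : ℝ))‖ ≤ (A * h * lam) ^ i := by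
    rw [norm_prod]
    simpa using prod_le_prod (fun _ _ => norm_nonneg _) hy
  rw [norm_div, newton_norm i hh]
  calc _ ≤ (A * h * lam) ^ i / (i.factorial * h ^ i) := by gcongr
    _ = A ^ i / i.factorial * lam ^ i := by
        rw [mul_pow, mul_pow]
        field_simp
    _ ≤ _ := by
        gcongr
        exact Real.pow_div_factorial_le_exp A hA i

lemma pair_sum {a : ℕ → ℝ} (ha : ∀ n, |a n| ≤ 1) (J : Finset ℕ) (μ : ℕ → ℂ) (s : ℕ → ℝ) (m : ℝ)
    (hs : ∀ j ∈ J, 0 ≤ ((s j + I * m) ^ 2).re) :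
    HasSum (fun n : ℕ => (a n : ℂ) * (∑ j ∈ J, μ j * ((m : ℂ) - (n + 1) - I * s j)⁻¹ +
      ∑ j ∈ J, μ j * ((m : ℂ) + (n + 1) - I * s j)⁻¹))
      (∑ j ∈ J, μ j * (2 * I * (s j + I * m)) * F a ((s j + I * m) ^ 2)) := by
  have h1 := hasSum_sum fun j hj => (hasSum_F ha (hs j hj)).mul_left (μ j * (2 * I * (s j + I * m)))
  refine Eq.mpr (congrArg (fun f => HasSum f _) (funext fun n => ?_)) h1
  rw [← sum_add_distrib, mul_sum]
  refine sum_congr rfl fun j hj => ?_
  have h2 := den_ne (hs j hj) n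
  have h3 : ((s j : ℂ) + I * m) ^ 2 + (n + 1) ^ 2 =
      -(((m : ℂ) - (n + 1) - I * s j) * ((m : ℂ) + (n + 1) - I * s j)) := by
    linear_combination ((s j : ℂ) ^ 2 + (m : ℂ) ^ 2) * I_sq
  have h4 : 2 * I * ((s j : ℂ) + I * m) =
      -(((m : ℂ) - (n + 1) - I * s j) + ((m : ℂ) + (n + 1) - I * s j)) := by
    linear_combination (2 * (m : ℂ)) * I_sq
  rw [h3, neg_ne_zero, mul_ne_zero_iff] at h2
  rw [h3, h4]
  obtain ⟨h5, h6⟩ := h2
  generalize (m : ℂ) - (n + 1) - I * s j = p at *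
  generalize (m : ℂ) + (n + 1) - I * s j = q at *
  field_simp
  ring

/-- `∑ 1 / y ^ 2` over the integers -/
noncomputable def Z : ℝ := ∑' y : ℤ, 1 / (y : ℝ) ^ 2

lemma window {a : ℕ → ℝ} {b : ℤ → ℤ} (h0 : b 0 = 0) (h1 : ∀ k, |b k| ≤ 1)
    (h2 : ∀ n : ℕ, (b (n + 1) : ℝ) = a n) (h3 : ∀ k, b (-k) = b k) (g : ℤ → ℂ) {N : ℕ} {δ : ℝ}
    (hδ : 0 ≤ δ) (hg : ∀ y : ℤ, (N : ℤ) ≤ |y| → ‖g y‖ ≤ δ * (1 / (y : ℝ) ^ 2)) (m : ℤ) {E : ℂ}
    (hE : HasSum (fun n : ℕ => (a n : ℂ) * (g (m - (n + 1)) + g (m + (n + 1)))) E) :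
    ‖∑ r : Fin (2 * N), (b (m + N - r) : ℂ) * g (r - N)‖ ≤ ‖E‖ + δ * Z := by
  classical
  obtain ⟨J, hJ⟩ : ∃ J : Finset ℤ, J = univ.image fun r : Fin (2 * N) => (r : ℤ) - N := ⟨_, rfl⟩
  have hZ : HasSum (fun y : ℤ => δ * (1 / (y : ℝ) ^ 2)) (δ * Z) :=
    (Real.summable_one_div_int_pow.2 one_lt_two).hasSum.mul_left δ
  have h4 : ∀ y : ℤ, ‖if y ∈ J then 0 else (b (m - y) : ℂ) * g y‖ ≤ δ * (1 / (y : ℝ) ^ 2) :=
    fun y => by
    split_ifs with h
    · rw [norm_zero]; positivity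
    · rw [norm_mul, norm_intCast]
      refine (mul_le_of_le_one_left (norm_nonneg _) (by exact_mod_cast h1 _)).trans (hg y ?_)
      by_contra h5
      rw [not_le, abs_lt] at h5
      exact h (hJ ▸ mem_image.2 ⟨⟨(y + N).toNat, by omega⟩, mem_univ _, by simp; omega⟩)
  have h5 := (Summable.of_norm_bounded hZ.summable h4).hasSum
  have h6 := tsum_of_norm_bounded hZ h4
  generalize (∑' y : ℤ, if y ∈ J then 0 else (b (m - y) : ℂ) * g y) = R at h5 h6
  have h7 : HasSum (fun y : ℤ => if y ∈ J then (b (m - y) : ℂ) * g y else 0)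
      (∑ r : Fin (2 * N), (b (m + N - r) : ℂ) * g (r - N)) := by
    have : ∑ r : Fin (2 * N), (b (m + N - r) : ℂ) * g (r - N) =
        ∑ y ∈ J, if y ∈ J then (b (m - y) : ℂ) * g y else 0 := by
      rw [sum_congr rfl fun y hy => if_pos hy, hJ,
        sum_image fun r _ r' _ e => Fin.ext (by omega)]
      exact sum_congr rfl fun r _ => by rw [show m + N - r = m - (r - N) by ring]
    rw [this]
    exact hasSum_sum_of_ne_finset_zero fun y hy => if_neg hy
  generalize (∑ r : Fin (2 * N), (b (m + N - r) : ℂ) * g (r - N)) = W at h7 ⊢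
  have h8 : HasSum (fun y : ℤ => (b (m - y) : ℂ) * g y) (W + R) :=
    Eq.mpr (congrArg (fun f => HasSum f _) (funext fun y => by split_ifs <;> simp)) (h7.add h5)
  have h9 := (((Equiv.subLeft m).hasSum_iff.2 h8).nat_add_neg)
  have h10 := (hasSum_nat_add_iff' 1).2 h9
  have h11 : W + R = E := by
    refine HasSum.unique ?_ hE
    simp only [Function.comp, Equiv.subLeft_apply, sub_sub_cancel, range_one, sum_singleton,
      Nat.cast_zero, neg_zero, h0, Int.cast_zero, zero_mul, add_zero, sub_zero, h3,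
      sub_self] at h10
    refine Eq.mpr (congrArg (fun f => HasSum f _) (funext fun n => ?_)) h10
    have : ((b (n + 1) : ℤ) : ℂ) = a n := by exact_mod_cast congrArg ofReal (h2 n)
    push_cast
    rw [this, sub_neg_eq_add, mul_add]
  rw [eq_sub_of_add_eq h11]
  exact (norm_sub_le _ _).trans (by gcongr)

end Pool.Agent.Lib.MP_51e19e_an.Sq
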