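import Pool.Agent.Lib.MP_51e19e_an.Sq.Core

/-!
Choice of the parameters, the bounded range, and the dyadic sum.
-/

namespace Pool.Agent.Lib.MP_51e19e_an.Sq

open Complex Finset

lemma one_le_psi {X : ℝ} (hX : 2 ≤ X) : 1 ≤ √(X * Real.log X) := by
  refine Real.le_sqrt_of_sq_le ?_
  have h1 := Real.log_le_log two_pos hX
  have h2 := Real.log_two_gt_d9
  nlinarith

lemma dyadic : ∃ C : ℝ, 0 ≤ C ∧ ∀ a : ℕ → ℝ, (∀ n, a n = 1 ∨ a n = -1) → ∀ X : ℝ, 10 ^ 6 ≤ X →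
    ∀ T : Finset ℝ, (∀ t ∈ T, X / 2 ≤ t ∧ t ≤ X ∧ F a ((t ^ 2 : ℝ) : ℂ) = 0) →
    T.card ≤ C * √(X * Real.log X) := by
  obtain ⟨C, hC⟩ := core
  refine ⟨C * 2, by positivity, fun a ha X hX T hT => ?_⟩
  have hX0 : 0 < X := by linarith
  have h0 := one_le_psi (X := X) (by linarith)
  have h1 : √(X * Real.log X) ^ 2 = X * Real.log X :=
    Real.sq_sqrt (mul_nonneg hX0.le (Real.log_nonneg (by linarith)))
  have h2 : √(X * Real.log X) ≤ X / 32 := by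
    refine Real.sqrt_le_iff.2 ⟨by positivity, ?_⟩
    obtain ⟨w, hw, rfl⟩ : ∃ w : ℝ, 0 < w ∧ X = w ^ 4 :=
      ⟨√√X, by positivity, by
        rw [show 4 = 2 * 2 from rfl, pow_mul, Real.sq_sqrt (by positivity), Real.sq_sqrt hX0.le]⟩
    have h3 : Real.log (w ^ 4) ≤ 4 * w := by
      rw [Real.log_pow]
      have := Real.log_le_sub_one_of_pos hw
      push_cast
      linarith
    have h4 : 16 ≤ w := le_of_pow_le_pow_left₀ (n := 4) (by norm_num) hw.le (by linarith)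
    have h5 : 16 ^ 3 ≤ w ^ 3 := by gcongr
    have h6 : 4 * w ≤ w ^ 4 / 1024 := by nlinarith
    nlinarith
  generalize √(X * Real.log X) = ψ at *
  obtain ⟨M, hM1, hM2⟩ : ∃ M : ℕ, ψ < M ∧ (M : ℝ) ≤ ψ + 1 :=
    ⟨⌊ψ⌋₊ + 1, by push_cast; exact Nat.lt_floor_add_one ψ, by
      push_cast; linarith [Nat.floor_le (by linarith : 0 ≤ ψ)]⟩
  have hM0 : (0 : ℝ) < M := by linarith
  obtain ⟨h, hh1, hh2⟩ : ∃ h : ℕ, X / 2 ≤ 8 * M * h ∧ 8 * (M : ℝ) * h ≤ X / 2 + 8 * M := by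
    have h3 := Nat.le_ceil (X / 2 / (8 * M))
    have h4 := (Nat.ceil_lt_add_one (by positivity : 0 ≤ X / 2 / (8 * M))).le
    rw [div_le_iff₀ (by positivity)] at h3
    rw [← sub_le_iff_le_add, le_div_iff₀ (by positivity)] at h4
    exact ⟨⌈X / 2 / (8 * M)⌉₊, by linarith, by linarith⟩
  have h3 : 8 * (M : ℝ) * h ≤ X := by linarith
  have h4 := hC a ha M h _ (by exact_mod_cast hM0) (Nat.pos_of_ne_zero fun e => by
    rw [e] at hh1; simp at hh1; linarith) rfl (by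
      have h5 : Real.log (8 * M * h) ≤ Real.log X := Real.log_le_log (by linarith) h3
      have h6 : 0 ≤ Real.log (8 * M * h) := Real.log_nonneg (by linarith)
      have h7 : 8 * M * h * Real.log (8 * M * h) ≤ X * Real.log X := by gcongr
      nlinarith) T (fun t ht => ⟨by linarith [(hT t ht).1], by linarith [(hT t ht).2.1],
        (hT t ht).2.2⟩)
  calc (T.card : ℝ) ≤ C * M := by exact_mod_cast h4
    _ ≤ C * (2 * ψ) := by gcongr; linarith
    _ = _ := by ring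

lemma bounded (Y : ℝ) : ∃ K : ℕ, ∀ a : ℕ → ℝ, (∀ n, a n = 1 ∨ a n = -1) →
    ∀ T : Finset ℝ, (∀ t ∈ T, 0 ≤ t ∧ t ≤ Y ∧ F a ((t ^ 2 : ℝ) : ℂ) = 0) → T.card ≤ K := by
  have h0 : 0 < Y ^ 2 + 1 := by positivity
  obtain ⟨ρ, hρ⟩ : ∃ ρ : ℝ, ρ = 1 - 1 / (2 * (Y ^ 2 + 1)) := ⟨_, rfl⟩
  have h1 : 0 ≤ ρ := by
    rw [hρ, sub_nonneg, div_le_one (by positivity)]; nlinarith
  have h2 : ρ < 1 := by rw [hρ]; exact sub_lt_self _ (by positivity)
  obtain ⟨K, hK⟩ := exists_pow_lt_of_lt_one (show (0 : ℝ) < 1 / 20 by norm_num) h2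
  refine ⟨K, fun a ha T hT => ?_⟩
  have ha1 : ∀ n, |a n| = 1 := fun n => by rcases ha n with e | e <;> simp [e]
  have h3 : ∀ t ∈ T, 1 / 4 < t ^ 2 := fun t ht => by
    by_contra h
    have := small (fun n => (ha1 n).le) (ha1 0) (sq_nonneg t) (not_lt.1 h)
    rw [(hT t ht).2.2, norm_zero] at this
    norm_num at this
  have h4 := blaschke T (fun n => (ha1 n).le) (fun t ht => ⟨(hT t ht).1.lt_of_ne fun e => by
    have := h3 t ht; rw [← e] at this; norm_num at this, (hT t ht).2.2⟩)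
    (u := ((1 / 4 : ℝ) : ℂ)) (by rw [ofReal_re]; norm_num) h1 fun t ht => by
      have h4 := h3 t ht
      have h5 : t ^ 2 ≤ Y ^ 2 := pow_le_pow_left₀ (hT t ht).1 (hT t ht).2.1 2
      have h6 : 1 / (2 * (Y ^ 2 + 1)) * (1 / 4 + t ^ 2) ≤ 1 / 2 := by
        rw [one_div_mul_eq_div, div_le_iff₀ (by positivity)]; linarith
      rw [← ofReal_sub, ← ofReal_add, norm_real, norm_real, Real.norm_eq_abs, Real.norm_eq_abs,
        abs_of_nonneg (by linarith), abs_of_nonneg (by linarith), hρ]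
      linarith
  have h5 := small (fun n => (ha1 n).le) (ha1 0) (v := 1 / 4) (by norm_num) le_rfl
  by_contra h
  have h6 := pow_le_pow_of_le_one h1 h2.le (not_le.1 h).le
  linarith

lemma nonneg_zeros : ∃ B : ℝ, ∀ a : ℕ → ℝ, (∀ n, a n = 1 ∨ a n = -1) → ∀ X : ℝ, 2 ≤ X →
    ∀ T : Finset ℝ, (∀ t ∈ T, 0 ≤ t ∧ t ≤ X ∧ F a ((t ^ 2 : ℝ) : ℂ) = 0) →
    T.card ≤ B * √(X * Real.log X) := by
  classical
  obtain ⟨C, hC0, hC⟩ := dyadic
  obtain ⟨K, hK⟩ := bounded (10 ^ 6)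
  refine ⟨K + 4 * C, fun a ha X hX => ?_⟩
  obtain ⟨k, hk⟩ := pow_unbounded_of_one_lt X one_lt_two
  induction k generalizing X with
  | zero => norm_num at hk; linarith
  | succ k ih =>
    intro T hT
    have h0 := one_le_psi hX
    have hK0 : (0 : ℝ) ≤ K := K.cast_nonneg
    by_cases h : X ≤ 10 ^ 6
    · have h1 : (T.card : ℝ) ≤ K := by
        exact_mod_cast hK a ha T fun t ht => ⟨(hT t ht).1, (hT t ht).2.1.trans h, (hT t ht).2.2⟩
      nlinarith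
    · rw [not_le] at h
      have h1 := ih (X / 2) (by linarith) (by rw [pow_succ] at hk; linarith)
        (T.filter (· ≤ X / 2)) fun t ht =>
          ⟨(hT t (mem_filter.1 ht).1).1, (mem_filter.1 ht).2, (hT t (mem_filter.1 ht).1).2.2⟩
      have h2 := hC a ha X h.le (T.filter (¬ · ≤ X / 2)) fun t ht =>
        ⟨(not_le.1 (mem_filter.1 ht).2).le, (hT t (mem_filter.1 ht).1).2⟩
      have h3 : √(X / 2 * Real.log (X / 2)) ≤ 3 / 4 * √(X * Real.log X) := by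
        have h4 : Real.log (X / 2) ≤ Real.log X := Real.log_le_log (by linarith) (by linarith)
        have h5 : 0 ≤ Real.log X := Real.log_nonneg (by linarith)
        refine Real.sqrt_le_iff.2 ⟨by positivity, ?_⟩
        rw [mul_pow, Real.sq_sqrt (by positivity)]
        nlinarith
      have h4 : (T.card : ℝ) = (T.filter (· ≤ X / 2)).card + (T.filter (¬ · ≤ X / 2)).card := by
        exact_mod_cast (card_filter_add_card_filter_not _).symm
      have h5 := mul_le_mul_of_nonneg_left h3 (by positivity : (0 : ℝ) ≤ K + 4 * C)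
      nlinarith

theorem main : ∃ C : ℝ, ∀ a : ℕ → ℝ, (∀ n, a n = 1 ∨ a n = -1) → ∀ X : ℝ, 2 ≤ X →
    {t : ℝ | |t| < X ∧ ∑' n : ℕ, a n / (t ^ 2 + ((n : ℝ) + 1) ^ 2) = 0}.Finite ∧
    ({t : ℝ | |t| < X ∧ ∑' n : ℕ, a n / (t ^ 2 + ((n : ℝ) + 1) ^ 2) = 0}.ncard : ℝ) ≤
      C * √(X * Real.log X) := by
  classical
  obtain ⟨B, hB⟩ := nonneg_zeros
  refine ⟨2 * B, fun a ha X hX => ?_⟩
  generalize hA : {t : ℝ | |t| < X ∧ ∑' n : ℕ, a n / (t ^ 2 + ((n : ℝ) + 1) ^ 2) = 0} = A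
  have h1 : ∀ t ∈ A, |t| ≤ X ∧ F a ((t ^ 2 : ℝ) : ℂ) = 0 := fun t ht => by
    rw [← hA] at ht
    refine ⟨ht.1.le, ?_⟩
    have := congrArg ofReal ht.2
    rw [ofReal_tsum] at this
    simpa [F] using this
  have h2 : ∀ T : Finset ℝ, (T : Set ℝ) ⊆ A → (T.card : ℝ) ≤ 2 * B * √(X * Real.log X) :=
    fun T hT => by
    have h2 := hB a ha X hX (T.filter (0 ≤ ·)) fun t ht => ⟨(mem_filter.1 ht).2,
      (le_abs_self t).trans (h1 t (hT (mem_filter.1 ht).1)).1, (h1 t (hT (mem_filter.1 ht).1)).2⟩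
    have h3 := hB a ha X hX ((T.filter (¬ 0 ≤ ·)).image Neg.neg) fun t ht => by
      obtain ⟨s, hs, rfl⟩ := mem_image.1 ht
      obtain ⟨h3, h4⟩ := h1 s (hT (mem_filter.1 hs).1)
      exact ⟨neg_nonneg.2 (not_le.1 (mem_filter.1 hs).2).le, (neg_le_abs s).trans h3, by
        rwa [neg_sq]⟩
    rw [card_image_of_injective _ neg_injective] at h3
    have h4 : (T.card : ℝ) = (T.filter (0 ≤ ·)).card + (T.filter (¬ 0 ≤ ·)).card := by
      exact_mod_cast (card_filter_add_card_filter_not _).symm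
    linarith
  have h3 : A.Finite := by
    by_contra h
    obtain ⟨N, hN⟩ := exists_nat_gt (2 * B * √(X * Real.log X))
    obtain ⟨T, hT, h4⟩ := Set.Infinite.exists_subset_card_eq h N
    exact absurd (h4 ▸ h2 T hT) (not_le.2 hN)
  exact ⟨h3, by rw [Set.ncard_eq_toFinset_card _ h3]; exact h2 _ (by simp)⟩

end Pool.Agent.Lib.MP_51e19e_an.Sq
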